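import Mathlib
import Pool.Agent.H84.KLike

namespace Pool.Agent.Results.MP_05361d_gt.Yes

open Pool.Agent.H84.KLike

universe u v

theorem result (k : ℕ) (K : Set TopCat.{v})
    (hK : ∀ Y ∈ K, Continuum Y ∧ ContractibleSpace Y ∧ DimLE Y k)
    (X : Type u) [TopologicalSpace X] (hX : Continuum X) :
    Like K X ↔ NLike (4 ^ (2 * k + 2)) K X :=
  ⟨fun h 𝒰 h1 _ => h 𝒰 h1, main hK hX⟩

end Pool.Agent.Results.MP_05361d_gt.Yes
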